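import Mathlib
import Pool.Agent.U37.MQ.Stm

set_option autoImplicit false

/-!
Package ALG of project MQ: algebra of the involutions.
-/

open Finset Equiv Pool.Agent.U37.MQ Pool.Agent.N606.ST Pool.Agent.U671.PG

open scoped Classical

namespace Pool.Agent.U165.MQ.ALG

section

variable {G K : Type} {I : G → G → Perm K}

theorem app (hi : ∀ x y, I x y * I x y = 1) (x y : G) (A : K) : I x y (I x y A) = A := by
  have := congrArg (fun f : Perm K => f A) (hi x y)
  simpa using this

theorem inv' (hi : ∀ x y, I x y * I x y = 1) (x y : G) : (I x y)⁻¹ = I x y :=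
  inv_eq_of_mul_eq_one_right (hi x y)

/-- step (1) -/
theorem one (hs : ∀ x y, I x y = I y x) (hi : ∀ x y, I x y * I x y = 1)
    (h4 : ∀ x y z p, x ≠ y → x ≠ z → x ≠ p → y ≠ z → y ≠ p → z ≠ p →
      I p x * I z p * I y z * I x y = 1) {x y z p : G} (hxz : x ≠ z) (hyx : y ≠ x) (hyz : y ≠ z)
    (hpx : p ≠ x) (hpz : p ≠ z) : I z y * I y x = I z p * I p x := by
  by_cases hyp : y = p
  · rw [hyp]
  · have h1 := h4 x y z p hyx.symm hxz hpx.symm hyz hyp hpz.symm
    rw [mul_assoc] at h1
    have h2 := inv_eq_of_mul_eq_one_right h1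
    rw [mul_inv_rev, inv' hi, inv' hi] at h2
    rw [h2, hs z y, hs y x]

/-- step (2) -/
theorem two (hs : ∀ x y, I x y = I y x) (hi : ∀ x y, I x y * I x y = 1)
    (hsur : ∀ A C x, ∃ y, I x y A = C) (hinj : ∀ A x y y', I x y A = I x y' A → y = y')
    (h4 : ∀ x y z p, x ≠ y → x ≠ z → x ≠ p → y ≠ z → y ≠ p → z ≠ p →
      I p x * I z p * I y z * I x y = 1) {x z y0 : G} (hxz : x ≠ z) (hyx : y0 ≠ x) (hyz : y0 ≠ z)
    (y : G) : I z y * I y x = I z y0 * I y0 x := by
  -- the two bijections agree off `x, z`
  have key : ∀ (A : K) (y : G), y ≠ x → y ≠ z → I x y A = I z y ((I z y0 * I y0 x) A) := by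
    intro A y h1 h2
    rw [← one hs hi h4 hxz h1 h2 hyx hyz, Perm.mul_apply, app hi, hs y x]
  have hne : ∀ A : K, (I z y0 * I y0 x) A ≠ A := by
    intro A hA
    have h1 := key A y0 hyx hyz
    rw [hA, hs x y0, hs z y0] at h1
    exact hxz (hinj _ _ _ _ h1)
  have hz : ∀ A : K, I x z A = I z z ((I z y0 * I y0 x) A) := by
    intro A
    obtain ⟨v, hv⟩ := hsur ((I z y0 * I y0 x) A) (I x z A) z
    by_cases h1 : v = z
    · rw [h1] at hv
      exact hv.symm
    · by_cases h2 : v = x
      · exfalso
        rw [h2, hs z x] at hv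
        exact hne A ((I x z).injective hv)
      · exfalso
        rw [← key A v h2 h1] at hv
        exact h1 (hinj _ _ _ _ hv)
  have hx : ∀ A : K, I x x A = I z x ((I z y0 * I y0 x) A) := by
    intro A
    obtain ⟨v, hv⟩ := hsur ((I z y0 * I y0 x) A) (I x x A) z
    by_cases h1 : v = x
    · rw [h1] at hv
      exact hv.symm
    · exfalso
      by_cases h2 : v = z
      · rw [h2, ← hz A] at hv
        exact hxz (hinj _ _ _ _ hv).symm
      · rw [← key A v h1 h2] at hv
        exact h1 (hinj _ _ _ _ hv)
  by_cases h1 : y = x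
  · rw [h1]
    ext A
    rw [Perm.mul_apply, hx A, app hi]
  · by_cases h2 : y = z
    · rw [h2]
      ext A
      rw [Perm.mul_apply, hs z x, hz A, app hi]
    · exact one hs hi h4 hxz h1 h2 hyx hyz

/-- step (3) -/
theorem three [Fintype G] (hG : 3 ≤ Fintype.card G) (hs : ∀ x y, I x y = I y x)
    (hi : ∀ x y, I x y * I x y = 1)
    (hsur : ∀ A C x, ∃ y, I x y A = C) (hinj : ∀ A x y y', I x y A = I x y' A → y = y')
    (h4 : ∀ x y z p, x ≠ y → x ≠ z → x ≠ p → y ≠ z → y ≠ p → z ≠ p →
      I p x * I z p * I y z * I x y = 1) (x z y p : G) : I z y * I y x = I z p * I p x := by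
  by_cases hxz : x = z
  · rw [hxz, hs y z, hi, hs p z, hi]
  · obtain ⟨y0, h0⟩ : ∃ y0 : G, y0 ∉ ({x, z} : Finset G) := by
      by_contra hcon
      push Not at hcon
      have h1 : (univ : Finset G) ⊆ {x, z} := fun a _ => hcon a
      have h2 := card_le_card h1
      rw [card_univ] at h2
      have h3 := card_le_two (a := x) (b := z)
      omega
    rw [mem_insert, mem_singleton, not_or] at h0
    rw [two hs hi hsur hinj h4 hxz h0.1 h0.2 y, two hs hi hsur hinj h4 hxz h0.1 h0.2 p]

end

theorem t_ALG : S_ALG := by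
  intro G K _ _ I hG hs hi hsur hinj h4 x y z w
  have h3 := three hG hs hi hsur hinj h4
  -- the translations
  set T : G → G → Perm K := fun z x => I z z * I z x with hT
  have hTe : ∀ z x y, T z x = I z y * I y x := fun z x y => h3 x z z y
  have hmul : ∀ a b c, T a b * T b c = T a c := by
    intro a b c
    rw [hTe a b x, hTe b c x, hTe a c x, mul_assoc, ← mul_assoc (I x b), hs b x, hi, one_mul]
  have hone : ∀ a, T a a = 1 := fun a => hi a a
  have hconj : ∀ p a b, I p b * T a b * I p b = T b a := by
    intro p a b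
    rw [hTe a b p, hTe b a p, mul_assoc, mul_assoc, hi, mul_one, hs p b, hs a p]
  have hconj' : ∀ p a b, I p b * T b a * I p b = T a b := by
    intro p a b
    rw [← hconj p a b, mul_assoc, mul_assoc, mul_assoc, hi, mul_one, ← mul_assoc, hi, one_mul]
  have hcomm : ∀ x w z, T x w * T w z = T w z * T x w := by
    intro x w z
    have e1 : I w x * T z x * I w x = T x z := hconj w z x
    have e2 : I w x * T z w * I w x = T w z := by
      rw [hs w x]
      exact hconj x z w
    have e3 : I w x * T w x * I w x = T x w := hconj w w x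
    have e4 : I w x * T z x * I w x = (I w x * T z w * I w x) * (I w x * T w x * I w x) := by
      rw [← hmul z w x]
      have : I w x * T z w * I w x * (I w x * T w x * I w x) =
          I w x * T z w * (I w x * I w x) * T w x * I w x := by
        simp only [mul_assoc]
      rw [this, hi, mul_one, mul_assoc (I w x) (T z w) (T w x)]
    rw [e1, e2, e3] at e4
    rw [hmul, e4]
  have e : I x y * I x z = T y z := by
    rw [hTe y z x, hs x y]
  rw [e]
  have h5 : I x w * T y z * I x w = T z y := by
    have h6 : I x w * T y z * I x w = (I x w * T y w * I x w) * (I x w * T w z * I x w) := by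
      rw [← hmul y w z]
      have : I x w * T y w * I x w * (I x w * T w z * I x w) =
          I x w * T y w * (I x w * I x w) * T w z * I x w := by
        simp only [mul_assoc]
      rw [this, hi, mul_one]
      simp only [mul_assoc]
    rw [h6, hconj, hconj', ← hcomm, hmul]
  calc T y z * I x w * (T y z * I x w) = T y z * (I x w * T y z * I x w) := by
        simp only [mul_assoc]
    _ = 1 := by rw [h5, hmul, hone]

end Pool.Agent.U165.MQ.ALG
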